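import Pool.Agent.H.MP_50aa38_lc.B

/-! (Reg) is not first-order: no sentence, and no set of sentences, is equivalent to it. -/

namespace Pool.Agent.Results.MP_50aa38_lc.No

open FirstOrder Language Pool.Agent.H.MP_50aa38_lc

theorem result : (∀ φ : L.Sentence, ∃ A : ContactAlg, ¬(A.B ⊨ φ ↔ Reg A)) ∧
    ∀ T : L.Theory, ∃ A : ContactAlg, ¬(A.B ⊨ T ↔ Reg A) := by
  refine ⟨fun φ => ?_, fun T => ?_⟩ <;> by_contra h <;> push Not at h
  · exact not_reg ((h _).1 ((elem.map_sentence φ).1 ((h _).2 reg)))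
  · exact not_reg ((h _).1 ((elem.theory_model_iff T).1 ((h _).2 reg)))

end Pool.Agent.Results.MP_50aa38_lc.No
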